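import Pool.Agent.Helper607.Bases.Disproof

/-!
# The ring generated by square-zero matrices of all sizes

`Universal K` is the `K`-algebra with generators the entries of one matrix of each size
`m + 1` and the relations saying that these matrices have square zero.  Over every nonzero
commutative ring `K` the complexes of bases with complements and coefficients in `R^n` have
nonzero homology in degree `0` for all `n ≥ 2`, and the same holds for every ring `R` that
retracts onto `Universal K` (the section need not preserve `1`).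
-/

namespace Pool.Agent.Y136.SquareZero

open Matrix Pool.Agent.Helper607.Bases

universe u

/-- Index set of the generators: the entries of one square matrix of each size `m + 1`. -/
abbrev Gen : Type := Σ m : ℕ, Fin (m + 1) × Fin (m + 1)

/-- The defining relations: the `(i, j)` entry of the square of the matrix of size `m + 1`
is zero. -/
inductive SqRel (K : Type) [CommRing K] : FreeAlgebra K Gen → FreeAlgebra K Gen → Prop
  | sq (m : ℕ) (i j : Fin (m + 1)) :
      SqRel K (∑ l, FreeAlgebra.ι K (⟨m, (i, l)⟩ : Gen) * FreeAlgebra.ι K (⟨m, (l, j)⟩ : Gen)) 0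

/-- The `K`-algebra generated by the entries of one matrix of each size `m + 1`, subject to the
relations that these matrices have square zero. -/
abbrev Universal (K : Type) [CommRing K] : Type := RingQuot (SqRel K)

section Criterion

variable {k : Type} [Field k] {m : ℕ} {R : Type u} [Ring R]

/-- A ring with a homomorphism to the generic ring `A k m` and a square-zero matrix lifting the
generic one has nonzero homology in degree `0` for `n = m + 1`. -/
lemma nonvanishing_of_lift (hm : 1 ≤ m) (π : R →+* A k m)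
    (Eh : Matrix (Fin (m + 1)) (Fin (m + 1)) R) (hEh : Eh * Eh = 0)
    (hπE : ∀ i j, π (Eh i j) = (A.E : Matrix (Fin (m + 1)) (Fin (m + 1)) (A k m)) i j) :
    ¬ HomologyVanishes (m + 1) (tupleChains R (m + 1)) 1 ∧
      ¬ HomologyVanishes (m + 1) (inducedChains R (m + 1)) 1 := by
  have hπ1 : ∀ i : Fin (m + 1), (fun j => π ((Pi.single i 1 : Fin (m + 1) → R) j))
      = (Pi.single i 1 : Fin (m + 1) → A k m) := by
    intro i
    ext1 j
    by_cases h : j = i
    · subst h; simp
    · simp [Pi.single_eq_of_ne h]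
  let g : (Matrix (Fin (m + 1)) (Fin (m + 1)) R)ˣ :=
    { val := 1 + Eh
      inv := 1 - Eh
      val_inv := by rw [mul_sub, add_mul, add_mul, hEh]; simp
      inv_val := by rw [mul_add, sub_mul, sub_mul, hEh]; simp }
  have hdot : ∀ v w : Fin (m + 1) → R, (fun j => π (v j)) ⬝ᵥ (fun j => π (w j))
      = π (v ⬝ᵥ w) := by
    intro v w
    simp [dotProduct, map_sum]
  refine nonvanishing hm (fun v w => A.Rel (fun j => π (v j)) (fun j => π (w j))
    (Pi.single 0 1) (Pi.single 0 1)) ?_ ?_ g ?_ ?_
  · intro v0 w0 v1 w1 _ h11 h01 h10 h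
    refine A.edge hm _ _ _ _ ?_ ?_ ?_ h
    · rw [hdot, h01, map_zero]
    · rw [hdot, h10, map_zero]
    · rw [hdot, h11, map_one]
  · simp only [hπ1]
    exact A.rel_single 0 0
  · intro i h
    apply A.not_rel (k := k) (n := m) i
    have e1 : (fun j => π (((Pi.single i 1 : Fin (m + 1) → R) ᵥ*
        (g : Matrix (Fin (m + 1)) (Fin (m + 1)) R)) j))
        = (Pi.single i 1 : Fin (m+1) → A k m) ᵥ*
        ((A.uE : (Matrix (Fin (m+1)) (Fin (m+1)) (A k m))ˣ) :
          Matrix (Fin (m+1)) (Fin (m+1)) (A k m)) := by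
      ext1 j
      rw [Matrix.single_one_vecMul, Matrix.single_one_vecMul]
      change π ((1 + Eh) i j) = (1 + A.E : Matrix (Fin (m+1)) (Fin (m+1)) (A k m)) i j
      rw [Matrix.add_apply, Matrix.add_apply, map_add, hπE]
      congr 1
      rw [Matrix.one_apply, Matrix.one_apply]
      split_ifs <;> simp
    have e2 : (fun j => π ((((g⁻¹ : (Matrix (Fin (m + 1)) (Fin (m + 1)) R)ˣ) :
        Matrix (Fin (m + 1)) (Fin (m + 1)) R) *ᵥ
          (Pi.single i 1 : Fin (m + 1) → R)) j))
        = (((A.uE⁻¹ : (Matrix (Fin (m+1)) (Fin (m+1)) (A k m))ˣ) :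
          Matrix (Fin (m+1)) (Fin (m+1)) (A k m)) *ᵥ (Pi.single i 1 : Fin (m+1) → A k m)) := by
      ext1 j
      rw [Matrix.mulVec_single_one, Matrix.mulVec_single_one]
      change π ((1 - Eh) j i) = (1 - A.E : Matrix (Fin (m+1)) (Fin (m+1)) (A k m)) j i
      rw [Matrix.sub_apply, Matrix.sub_apply, map_sub, hπE]
      congr 1
      rw [Matrix.one_apply, Matrix.one_apply]
      split_ifs <;> simp
    rw [← e1, ← e2]
    exact h
  · refine ⟨⟨0, 1, fun h => ?_⟩⟩
    have := congrArg A.s (congrArg π h)
    simp at this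

end Criterion

section Maps

variable (K : Type) [CommRing K]

/-- The generic matrix of size `m + 1` over `Universal K`. -/
noncomputable def gen (m : ℕ) : Matrix (Fin (m + 1)) (Fin (m + 1)) (Universal K) :=
  Matrix.of fun i j => RingQuot.mkAlgHom K (SqRel K) (FreeAlgebra.ι K (⟨m, (i, j)⟩ : Gen))

lemma gen_mul_gen (m : ℕ) : gen K m * gen K m = 0 := by
  ext i j
  rw [Matrix.mul_apply, Matrix.zero_apply]
  simp only [gen, Matrix.of_apply, ← map_mul, ← map_sum]
  rw [RingQuot.mkAlgHom_rel K (SqRel.sq m i j), map_zero]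

/-- the constants `k → A k n` -/
noncomputable def cHom (k : Type) [Field k] (n : ℕ) : k →+* A k n where
  toFun := A.C
  map_one' := rfl
  map_mul' x y := by ext1 <;> simp
  map_zero' := rfl
  map_add' x y := by ext1 <;> simp

lemma cHom_comm (k : Type) [Field k] (n : ℕ) (r : k) (x : A k n) :
    cHom k n r * x = x * cHom k n r := by
  change A.C r * x = x * A.C r
  ext1
  · simp [mul_comm]
  · simp [add_comm]

/-- The homomorphism from the universal ring to the product of the rings `A k m`. -/
lemma exists_hom (k : Type) [Field k] (θ : K →+* k) : ∃ Φ : Universal K →+* (∀ m : ℕ, A k m),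
    ∀ m i j, Φ (gen K m i j)
      = Pi.single m ((A.E : Matrix (Fin (m + 1)) (Fin (m + 1)) (A k m)) i j) := by
  let _inst : ∀ m, Algebra K (A k m) := fun m =>
    ((cHom k m).comp θ).toAlgebra' (fun c x => cHom_comm k m (θ c) x)
  let F : Gen → (∀ m : ℕ, A k m) := fun g =>
    Pi.single g.1 ((A.E : Matrix (Fin (g.1 + 1)) (Fin (g.1 + 1)) (A k g.1)) g.2.1 g.2.2)
  have hrel : ∀ ⦃x y : FreeAlgebra K Gen⦄, SqRel K x y →
      FreeAlgebra.lift K F x = FreeAlgebra.lift K F y := by
    rintro _ _ ⟨m, i, j⟩
    rw [map_zero, map_sum]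
    simp only [map_mul, FreeAlgebra.lift_ι_apply, F]
    have h1 : ∀ l, (Pi.single m ((A.E : Matrix (Fin (m + 1)) (Fin (m + 1)) (A k m)) i l) :
          ∀ m : ℕ, A k m) *
        Pi.single m ((A.E : Matrix (Fin (m + 1)) (Fin (m + 1)) (A k m)) l j)
        = Pi.single m ((A.E : Matrix (Fin (m + 1)) (Fin (m + 1)) (A k m)) i l *
          (A.E : Matrix (Fin (m + 1)) (Fin (m + 1)) (A k m)) l j) := by
      intro l
      rw [Pi.single_mul]
    simp only [h1]
    have h2 := congrFun (congrFun (A.E_mul_E (k := k) (n := m)) i) j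
    rw [Matrix.mul_apply, Matrix.zero_apply] at h2
    have h3 : ∑ l, (Pi.single m ((A.E : Matrix (Fin (m + 1)) (Fin (m + 1)) (A k m)) i l *
          (A.E : Matrix (Fin (m + 1)) (Fin (m + 1)) (A k m)) l j) : ∀ m : ℕ, A k m)
        = Pi.single m (∑ l, (A.E : Matrix (Fin (m + 1)) (Fin (m + 1)) (A k m)) i l *
          (A.E : Matrix (Fin (m + 1)) (Fin (m + 1)) (A k m)) l j) :=
      (map_sum (AddMonoidHom.single (fun m => A k m) m) _ _).symm
    rw [h3, h2, Pi.single_zero]
  refine ⟨(RingQuot.liftAlgHom K ⟨FreeAlgebra.lift K F, hrel⟩ :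
    Universal K →ₐ[K] (∀ m : ℕ, A k m)).toRingHom, fun m i j => ?_⟩
  change RingQuot.liftAlgHom K ⟨FreeAlgebra.lift K F, hrel⟩
    (RingQuot.mkAlgHom K (SqRel K) (FreeAlgebra.ι K (⟨m, (i, j)⟩ : Gen))) = _
  rw [RingQuot.liftAlgHom_mkAlgHom_apply, FreeAlgebra.lift_ι_apply]

/-- The augmentation of the universal ring. -/
lemma exists_aug : ∃ φ : Universal K →+* K, Function.Surjective φ := by
  let F : Gen → K := fun _ => 0
  have hrel : ∀ ⦃x y : FreeAlgebra K Gen⦄, SqRel K x y →
      FreeAlgebra.lift K F x = FreeAlgebra.lift K F y := by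
    rintro _ _ ⟨m, i, j⟩
    rw [map_zero, map_sum]
    simp only [map_mul, FreeAlgebra.lift_ι_apply, F, mul_zero, Finset.sum_const_zero]
  refine ⟨(RingQuot.liftAlgHom K ⟨FreeAlgebra.lift K F, hrel⟩ : Universal K →ₐ[K] K).toRingHom,
    fun r => ⟨algebraMap K (Universal K) r, ?_⟩⟩
  exact (RingQuot.liftAlgHom K ⟨FreeAlgebra.lift K F, hrel⟩ : Universal K →ₐ[K] K).commutes r

end Maps

/-- The ring `R` maps onto `K`, the homology in degree `0` (tuples of size `1`) of both forms of
the complex over `R` is nonzero for every `n ≥ 2`, and neither form is highly acyclic. -/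
def FailsOver (K : Type) [CommRing K] (R : Type u) [Ring R] : Prop :=
  (∃ φ : R →+* K, Function.Surjective φ) ∧
    (∀ n, 2 ≤ n → ¬ HomologyVanishes n (tupleChains R n) 1 ∧
      ¬ HomologyVanishes n (inducedChains R n) 1) ∧
    ¬ HighlyAcyclic (tupleChains R) ∧ ¬ HighlyAcyclic (inducedChains R)

/-- Over every nonzero commutative ring `K`, and for every ring `R` retracting onto the universal
ring (with a section that need not preserve `1`), the homology in degree `0` is nonzero for all
`n ≥ 2`. -/
theorem nonvanishing_retract (K : Type) [CommRing K] [Nontrivial K] {R : Type u} [Ring R]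
    (p : R →+* Universal K) (s : Universal K →ₙ+* R) (hps : ∀ x, p (s x) = x) :
    FailsOver K R := by
  obtain ⟨M, hM⟩ := Ideal.exists_maximal K
  let _ : Field (K ⧸ M) := Ideal.Quotient.field M
  obtain ⟨Φ, hΦ⟩ := exists_hom K (K ⧸ M) (Ideal.Quotient.mk M)
  have h : ∀ n, 2 ≤ n → ¬ HomologyVanishes n (tupleChains R n) 1 ∧
      ¬ HomologyVanishes n (inducedChains R n) 1 := by
    intro n hn
    obtain ⟨m, rfl⟩ : ∃ m, n = m + 1 := ⟨n - 1, by omega⟩
    refine nonvanishing_of_lift (k := K ⧸ M) (m := m) (by omega)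
      (((Pi.evalRingHom (fun m => A (K ⧸ M) m) m).comp Φ).comp p)
      (Matrix.of fun i j => s (gen K m i j)) ?_ ?_
    · ext i j
      rw [Matrix.mul_apply, Matrix.zero_apply]
      simp only [Matrix.of_apply, ← map_mul, ← map_sum]
      have h1 := congrFun (congrFun (gen_mul_gen K m) i) j
      rw [Matrix.mul_apply, Matrix.zero_apply] at h1
      rw [h1, map_zero]
    · intro i j
      simp only [Matrix.of_apply, RingHom.comp_apply, hps, hΦ, Pi.evalRingHom_apply,
        Pi.single_eq_same]
  refine ⟨?_, h, ?_, ?_⟩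
  · obtain ⟨φ, hφ⟩ := exists_aug K
    refine ⟨φ.comp p, hφ.comp fun x => ⟨s x, hps x⟩⟩
  · rintro ⟨f, hf, hv⟩
    obtain ⟨N, hN⟩ := (Filter.tendsto_atTop_atTop.1 hf) 0
    have h0 := hN (N + 2) (by omega)
    exact (h (N + 2) (by omega)).1 (hv (N + 2) (by omega) 1 (by simpa using h0))
  · rintro ⟨f, hf, hv⟩
    obtain ⟨N, hN⟩ := (Filter.tendsto_atTop_atTop.1 hf) 0
    have h0 := hN (N + 2) (by omega)
    exact (h (N + 2) (by omega)).2 (hv (N + 2) (by omega) 1 (by simpa using h0))

/-- Every ring is a direct factor of a counterexample. -/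
theorem nonvanishing_prod (K : Type) [CommRing K] [Nontrivial K] (S : Type u) [Ring S] :
    FailsOver K (S × Universal K) :=
  nonvanishing_retract K (RingHom.snd S (Universal K))
    { toFun := fun x => (0, x)
      map_zero' := rfl
      map_add' := fun x y => by simp
      map_mul' := fun x y => by simp } (fun _ => rfl)

end Pool.Agent.Y136.SquareZero
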